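import Pool.Agent.Helper91.SY.Goals

/-!
# Packet SY-PC (Poincare lemma for 1-forms)
-/

set_option autoImplicit false

open Set Filter Topology
open scoped ContDiff

namespace Pool.Agent.Helper4.SY

open Pool.Agent.Helper91.SY

theorem pc_ : StmtPC := by
  intro E _ _ _ α hα hsym
  have hdiff : DifferentiableOn ℝ α univ :=
    (hα.differentiable (by simp)).differentiableOn
  obtain ⟨H, hH⟩ := (convex_univ (𝕜 := ℝ) (E := E)).exists_forall_hasFDerivAt_of_fderiv_symmetric
    isOpen_univ hdiff (fun a _ x y => hsym a x y)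
  have hfd : ∀ x, fderiv ℝ H x = α x := fun x => (hH x (mem_univ x)).fderiv
  refine ⟨H, ?_, hfd⟩
  have h1 : Differentiable ℝ H := fun x => (hH x (mem_univ x)).differentiableAt
  rw [contDiff_infty_iff_fderiv]
  refine ⟨h1, ?_⟩
  have h2 : fderiv ℝ H = α := funext hfd
  rw [h2]
  exact hα

end Pool.Agent.Helper4.SY
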